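import Mathlib

namespace Pool.Agent.Results.MP_eea90e_nt.Divergent

open Finset Filter

/-- The map `x ↦ (3x+1)/2^a`, where `2^a` is the exact power of two dividing `3x+1`. -/
def oddStep (x : ℕ) : ℕ := (3 * x + 1) / 2 ^ padicValNat 2 (3 * x + 1)

/-- The E-sequence of `x`, indexed from `0`: `eSeq x n` is the term `a_{n+1}`. -/
def eSeq (x n : ℕ) : ℕ := padicValNat 2 (3 * oddStep^[n] x + 1)

def T (n : ℕ) : ℕ := if n % 2 = 0 then n / 2 else (3 * n + 1) / 2

def o : ℕ → ℕ → ℕ
  | 0, _ => 0
  | k + 1, n => n % 2 + o k (T n)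

lemma count (w : ℝ) (c k : ℕ) : ∀ p q : ℕ, p % 2 = 1 →
    ∑ n ∈ range (2 ^ k * c), w ^ o k (p * n + q) = c * (1 + w) ^ k := by
  induction k with
  | zero => simp [o]
  | succ k ih =>
    intro p q hp
    have key : ∀ r : ℕ, ∑ j ∈ range (2 ^ k * c), w ^ o (k + 1) (2 * (p * j) + r) =
        w ^ (r % 2) * (c * (1 + w) ^ k) := by
      intro r
      by_cases hr : r % 2 = 0
      · rw [← ih p (r / 2) hp, mul_sum]
        refine sum_congr rfl fun j _ => ?_
        have h1 : (2 * (p * j) + r) % 2 = r % 2 := by omega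
        rw [o, pow_add, h1, T, if_pos (by omega)]
        congr 3
        omega
      · rw [← ih (3 * p) ((3 * r + 1) / 2) (by omega), mul_sum]
        refine sum_congr rfl fun j _ => ?_
        have h1 : (2 * (p * j) + r) % 2 = r % 2 := by omega
        rw [o, pow_add, h1, T, if_neg (by omega), mul_assoc]
        congr 3
        omega
    have split : ∀ (f : ℕ → ℝ) (N : ℕ), ∑ n ∈ range (2 * N), f n =
        ∑ j ∈ range N, f (2 * j) + ∑ j ∈ range N, f (2 * j + 1) := by
      intro f N
      induction N with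
      | zero => simp
      | succ N ih => rw [mul_add, mul_one, sum_range_succ, sum_range_succ, ih, sum_range_succ,
          sum_range_succ]; ring
    rw [show 2 ^ (k + 1) * c = 2 * (2 ^ k * c) by ring, split]
    have e1 : ∀ j, p * (2 * j) + q = 2 * (p * j) + q := fun j => by ring
    have e2 : ∀ j, p * (2 * j + 1) + q = 2 * (p * j) + (p + q) := fun j => by ring
    simp only [e1, e2, key]
    rcases Nat.mod_two_eq_zero_or_one q with h | h
    · rw [h, show (p + q) % 2 = 1 by omega]; ring
    · rw [h, show (p + q) % 2 = 0 by omega]; ring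

lemma growth (k : ℕ) : ∀ n, 2 ^ k * T^[k] n + 2 ^ k ≤ 3 ^ o k n * (n + 2 ^ k) := by
  induction k with
  | zero => simp [o]
  | succ k ih =>
    intro n
    have h := ih (T n)
    rw [Function.iterate_succ_apply, o, pow_add 3, pow_succ]
    have h2 : 2 * T n + 2 ^ k * 2 ≤ 3 ^ (n % 2) * (n + 2 ^ k * 2) := by
      have : 0 < 2 ^ k := by positivity
      unfold T
      rcases Nat.mod_two_eq_zero_or_one n with h | h <;> simp only [h] <;> simp <;> omega
    calc 2 ^ k * 2 * T^[k] (T n) + 2 ^ k * 2 = 2 * (2 ^ k * T^[k] (T n) + 2 ^ k) := by ring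
      _ ≤ 2 * (3 ^ o k (T n) * (T n + 2 ^ k)) := by gcongr
      _ = 3 ^ o k (T n) * (2 * T n + 2 ^ k * 2) := by ring
      _ ≤ 3 ^ o k (T n) * (3 ^ (n % 2) * (n + 2 ^ k * 2)) := by gcongr
      _ = _ := by ring

lemma card_bound (m : ℕ) (S : Finset ℕ) (hS : ∀ n ∈ S, n < 256 ^ (m + 1))
    (hi : Set.InjOn T^[8 * m] S) : (S.card : ℝ) ≤ 513 * 243 ^ m := by
  have e : 2 ^ (8 * m) = 256 ^ m := by rw [pow_mul]; norm_num
  have h1 : (S.filter fun n => o (8 * m) n ≤ 5 * m).card ≤ 257 * 243 ^ m := by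
    rw [← card_range (257 * 243 ^ m)]
    refine card_le_card_of_injOn T^[8 * m] (fun n hn => ?_) (hi.mono (coe_subset.2 (filter_subset _ _)))
    obtain ⟨h1, h2⟩ := mem_filter.1 hn
    have h3 := growth (8 * m) n
    have h4 : 3 ^ o (8 * m) n ≤ 243 ^ m :=
      (Nat.pow_le_pow_right (by norm_num) h2).trans (by rw [pow_mul]; norm_num)
    have h5 := hS n h1
    rw [e] at h3
    have h6 : 0 < 256 ^ m := by positivity
    have h7 : 3 ^ o (8 * m) n * (n + 256 ^ m) ≤ 243 ^ m * (257 * 256 ^ m) :=
      Nat.mul_le_mul h4 (by omega)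
    simp only [coe_range, Set.mem_Iio]
    refine lt_of_mul_lt_mul_left (a := 256 ^ m) ?_ (Nat.zero_le _)
    nlinarith
  have h2 : ((S.filter fun n => ¬ o (8 * m) n ≤ 5 * m).card : ℝ) ≤ 256 * 243 ^ m := by
    have h3 := count (5 / 3) 256 (8 * m) 1 0 rfl
    simp only [one_mul, add_zero] at h3
    have h4 : (S.filter fun n => ¬ o (8 * m) n ≤ 5 * m).card • ((5 / 3 : ℝ) ^ (5 * m)) ≤
        ∑ n ∈ range (2 ^ (8 * m) * 256), (5 / 3 : ℝ) ^ o (8 * m) n := by
      refine (card_nsmul_le_sum _ (fun n => (5 / 3 : ℝ) ^ o (8 * m) n) _ fun n hn => ?_).trans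
        (sum_le_sum_of_subset_of_nonneg (fun n hn => ?_) fun _ _ _ => by positivity)
      · exact pow_le_pow_right₀ (by norm_num) (not_le.1 (mem_filter.1 hn).2).le
      · rw [e, mem_range, ← pow_succ]
        exact hS n (mem_filter.1 hn).1
    rw [h3, nsmul_eq_mul, pow_mul, pow_mul] at h4
    refine le_of_mul_le_mul_right (h4.trans ?_) (show (0 : ℝ) < ((5 / 3) ^ 5) ^ m by positivity)
    rw [mul_assoc, ← mul_pow]
    push_cast
    gcongr
    norm_num
  rw [← card_filter_add_card_filter_not (s := S) fun n => o (8 * m) n ≤ 5 * m]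
  have h1' : ((S.filter fun n => o (8 * m) n ≤ 5 * m).card : ℝ) ≤ 257 * 243 ^ m := by
    exact_mod_cast h1
  push_cast
  linarith

lemma sum_bound (S : Finset ℕ) (h0 : ∀ n ∈ S, n ≠ 0) (hi : ∀ k, Set.InjOn T^[k] S) :
    ∑ n ∈ S, (1 / n : ℝ) ≤ 513 * 20 := by
  rw [← sum_fiberwise_of_maps_to (g := Nat.log 256) (t := S.image (Nat.log 256))
    fun n hn => mem_image_of_mem _ hn]
  have h1 : ∀ m, ∑ n ∈ S with Nat.log 256 n = m, (1 / n : ℝ) ≤ 513 * (243 / 256) ^ m := by
    intro m
    have h2 := card_bound m (S.filter fun n => Nat.log 256 n = m) (fun n hn => by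
      rw [← (mem_filter.1 hn).2]; exact Nat.lt_pow_succ_log_self (by norm_num) n)
      ((hi _).mono (coe_subset.2 (filter_subset _ _)))
    refine (sum_le_card_nsmul _ _ (1 / 256 ^ m) fun n hn => ?_).trans ?_
    · have := Nat.pow_log_le_self 256 (h0 n (mem_filter.1 hn).1)
      rw [(mem_filter.1 hn).2] at this
      exact one_div_le_one_div_of_le (by positivity) (by exact_mod_cast this)
    · rw [nsmul_eq_mul, div_pow, mul_one_div, ← mul_div_assoc]
      gcongr
  refine (sum_le_sum fun m _ => h1 m).trans ?_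
  rw [← mul_sum]
  have h3 := hasSum_geometric_of_lt_one (r := 243 / 256) (by norm_num) (by norm_num)
  have := sum_le_hasSum (S.image (Nat.log 256)) (fun _ _ => by positivity) h3
  norm_num at this ⊢
  linarith

lemma half (j y : ℕ) : T^[j] (2 ^ j * y) = y := by
  induction j with
  | zero => simp
  | succ j ih =>
    rw [Function.iterate_succ_apply, T, if_pos (by rw [pow_succ, mul_right_comm]; omega)]
    rw [show 2 ^ (j + 1) * y / 2 = 2 ^ j * y by rw [pow_succ, mul_right_comm]; omega, ih]

lemma step (x : ℕ) : 2 ^ padicValNat 2 (3 * x + 1) * oddStep x = 3 * x + 1 :=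
  Nat.mul_div_cancel' pow_padicValNat_dvd

lemma step_odd (x : ℕ) : oddStep x % 2 = 1 := by
  by_contra h
  obtain ⟨c, hc⟩ : 2 ∣ oddStep x := by omega
  refine pow_succ_padicValNat_not_dvd (p := 2) (n := 3 * x + 1) (by omega) ⟨c, ?_⟩
  rw [pow_succ, mul_assoc, ← hc, step]

lemma step_T (x : ℕ) (hx : x % 2 = 1) :
    1 ≤ padicValNat 2 (3 * x + 1) ∧ T^[padicValNat 2 (3 * x + 1)] x = oddStep x := by
  have h1 : 1 ≤ padicValNat 2 (3 * x + 1) := one_le_padicValNat_of_dvd (by omega) (by omega)
  refine ⟨h1, ?_⟩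
  have h2 := step x
  obtain ⟨j, hj⟩ := Nat.exists_eq_add_of_le' h1
  rw [hj] at h2 ⊢
  rw [Function.iterate_succ_apply, T, if_neg (by omega), ← h2,
    show 2 ^ (j + 1) * oddStep x / 2 = 2 ^ j * oddStep x by rw [pow_succ, mul_right_comm]; omega,
    half]

theorem result (a : ℕ → ℕ) (hper : ¬ ∃ l r, 1 ≤ r ∧ ∀ n ≥ l, a (n + r) = a n)
    (hb : ∃ᶠ n : ℕ in atTop, (n : ℝ) * Real.logb 2 3 < ∑ i ∈ range n, (a i : ℝ)) :
    ¬ ∃ x : ℕ, Odd x ∧ ∀ n, a n = eSeq x n := by
  rintro ⟨x0, hx0, ha⟩
  set x : ℕ → ℕ := fun n => oddStep^[n] x0 with hx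
  have hodd : ∀ n, x n % 2 = 1 := by
    rintro (_ | n)
    · exact Nat.odd_iff.1 hx0
    · simp only [hx, Function.iterate_succ_apply', step_odd]
  have hinj : Function.Injective x := by
    refine Function.Injective.of_lt_imp_ne fun i j hij h => hper ⟨i, j - i, by omega, fun n hn => ?_⟩
    have : x (n + (j - i)) = x n := by
      have e1 : n + (j - i) = n - i + j := by omega
      have e2 : n = n - i + i := by omega
      rw [e1]
      conv_rhs => rw [e2]
      simp only [hx, Function.iterate_add_apply] at h ⊢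
      rw [h]
    rw [ha, ha, eSeq, eSeq]
    exact congrArg (fun y => padicValNat 2 (3 * y + 1)) this
  have hT : ∀ n, T^[∑ i ∈ range n, a i] x0 = x n := by
    intro n
    induction n with
    | zero => rfl
    | succ n ih =>
      rw [sum_range_succ, add_comm, Function.iterate_add_apply, ih, ha]
      exact (step_T _ (hodd n)).2.trans (Function.iterate_succ_apply' _ _ _).symm
  have hmono : StrictMono fun n => ∑ i ∈ range n, a i := strictMono_nat_of_lt_succ fun n => by
    rw [sum_range_succ, ha n]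
    exact Nat.lt_add_of_pos_right (step_T _ (hodd n)).1
  have hTi : Function.Injective fun t => T^[t] x0 := by
    refine Function.Injective.of_lt_imp_ne fun s t hst h => ?_
    have hfin : ∀ u, T^[u] x0 ∈ (range t).image fun v => T^[v] x0 := by
      intro u
      induction u using Nat.strong_induction_on with
      | _ u ih =>
        by_cases hu : u < t
        · exact mem_image_of_mem _ (mem_range.2 hu)
        · have := ih (u - t + s) (by omega)
          rwa [Function.iterate_add_apply, h, ← Function.iterate_add_apply,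
            Nat.sub_add_cancel (not_lt.1 hu)] at this
    exact Set.infinite_range_of_injective hinj ((Finset.finite_toSet _).subset (by
      rintro _ ⟨n, rfl⟩
      rw [← hT]
      exact hfin _))
  have hsum : ∀ n, ∑ i ∈ range n, (1 / x i : ℝ) ≤ 513 * 20 := by
    intro n
    rw [← sum_image (f := fun y : ℕ => (1 / y : ℝ)) (hinj.injOn (s := range n))]
    refine sum_bound _ (fun y hy => ?_) fun k y hy z hz h => ?_
    · obtain ⟨i, -, rfl⟩ := mem_image.1 hy
      have := hodd i
      omega
    · obtain ⟨i, -, rfl⟩ := mem_image.1 (mem_coe.1 hy)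
      obtain ⟨j, -, rfl⟩ := mem_image.1 (mem_coe.1 hz)
      rw [← hT, ← hT, ← Function.iterate_add_apply, ← Function.iterate_add_apply] at h
      rw [hmono.injective (Nat.add_left_cancel (hTi h))]
  have hprod : ∀ n, (2 : ℝ) ^ (∑ i ∈ range n, a i) * x n ≤
      3 ^ n * x0 * Real.exp (∑ i ∈ range n, (1 / x i : ℝ)) := by
    intro n
    induction n with
    | zero => simp [hx]
    | succ n ih =>
      have h1 : (2 : ℝ) ^ a n * x (n + 1) = 3 * x n + 1 := by
        have := step (x n)
        rw [ha, hx]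
        simp only [Function.iterate_succ_apply']
        exact_mod_cast this
      have h2 : (0 : ℝ) < x n := by have := hodd n; exact_mod_cast (by omega)
      have h3 : (3 * x n + 1 : ℝ) ≤ x n * (3 * Real.exp (1 / x n)) := by
        have := mul_le_mul_of_nonneg_left (Real.add_one_le_exp (1 / x n)) h2.le
        rw [mul_add, mul_one_div_cancel h2.ne'] at this
        linarith
      rw [sum_range_succ, sum_range_succ, pow_add, mul_assoc, h1, Real.exp_add]
      calc _ ≤ (2 : ℝ) ^ (∑ i ∈ range n, a i) * (x n * (3 * Real.exp (1 / x n))) := by gcongr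
        _ ≤ 3 ^ n * x0 * Real.exp (∑ i ∈ range n, (1 / x i : ℝ)) * (3 * Real.exp (1 / x n)) := by
          rw [← mul_assoc]; gcongr
        _ = _ := by ring
  have hlim := (tendsto_natCast_atTop_atTop (R := ℝ)).comp hinj.nat_tendsto_atTop
  obtain ⟨n, h1, h2⟩ := (hb.and_eventually
    (hlim.eventually_gt_atTop (x0 * Real.exp (513 * 20)))).exists
  have h3 : (3 : ℝ) ^ n ≤ 2 ^ (∑ i ∈ range n, a i) := by
    rw [← Real.logb_le_logb (b := 2) one_lt_two (by positivity) (by positivity), Real.logb_pow,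
      Real.logb_pow, Real.logb_self_eq_one one_lt_two, mul_one]
    push_cast
    exact h1.le
  have h4 : (3 : ℝ) ^ n * x n ≤ 3 ^ n * (x0 * Real.exp (513 * 20)) := by
    refine (mul_le_mul_of_nonneg_right h3 (by positivity)).trans ((hprod n).trans ?_)
    rw [mul_assoc]
    gcongr
    exact hsum n
  exact absurd (le_of_mul_le_mul_left h4 (by positivity)) (not_le.2 h2)

end Pool.Agent.Results.MP_eea90e_nt.Divergent
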